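import Mathlib

/-!
# The highness classes `D(∼₀)`, `D(≠*, 2^(n!))` and `D(≠*, 2^(2^n))` coincide

Main idea (two candidate lists). Let `x` agree infinitely often with every computable function below
`2^(2^n)`. Cut the arguments of `x` into blocks `I_j = [4^j, 4^(j+1))` and the arguments of the new
function into blocks `J_j = [2^(j+1), 2^(j+2))`, so that `|I_j| < |J_j|^2`. Read each value `x n`,
`n ∈ I_j`, as a pair `u, v` of proposals for two functions below `2^(m!)` on `J_j`. At most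
`|J_j|` many `u` are paired with more than `|J_j|` different `v`; list them, and let `g₁` follow the
`i`-th one at the `i`-th element of `J_j`. If `g₁` misses a computable `z₁`, then for almost all `j`
the restriction of `z₁` is paired with at most `|J_j|` many `v` in `I_j`; list these, and let `g₂`
follow the `i`-th one at the `i`-th element of `J_j`. For each computable `z₂`, the function `x`
agrees infinitely often with the code of the pair `z₁, z₂`, so `g₂` agrees infinitely often with `z₂`.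
Either `g₁` or `g₂` is as wanted.
-/

set_option autoImplicit false

namespace Pool.Agent.Results.MP_65fbb9_lc.Coincidence

/-! ### Definitions used in the statement -/

open Classical in
/-- The oracle `A`: its characteristic function. -/
noncomputable def orc (A : Set ℕ) : ℕ →. ℕ := fun n => Part.some (if n ∈ A then 1 else 0)

/-- The number of positions below `n` at which `X` and `S` agree. -/
def agree (X S : ℕ → Bool) (n : ℕ) : ℕ := ((Finset.range n).filter fun i => X i = S i).card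

/-- The lower density of the set of the positions at which `X` and `S` agree. -/
noncomputable def lowerDens (X S : ℕ → Bool) : ℝ :=
  Filter.liminf (fun n : ℕ => (agree X S n : ℝ) / n) Filter.atTop

/-- The class `D(∼_p)`: the oracles `A` which compute a set `X` such that, for every computable
set `S`, the set of positions where `X` and `S` agree has lower density at most `p`. -/
def DSim (p : ℝ) : Set (Set ℕ) :=
  {A | ∃ X : ℕ → Bool, ComputableIn {orc A} X ∧
    ∀ S : ℕ → Bool, Computable S → lowerDens X S ≤ p}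

/-- The class `D(≠*, h)`: the oracles `A` which compute a function `x` such that `x n = y n` for
infinitely many `n`, for every computable function `y` with `y n < h n` for all `n`. -/
def DNeq (h : ℕ → ℕ) : Set (Set ℕ) :=
  {A | ∃ x : ℕ → ℕ, ComputableIn {orc A} x ∧
    ∀ y : ℕ → ℕ, Computable y → (∀ n, y n < h n) → ∃ᶠ n in Filter.atTop, x n = y n}

open Encodable

section api

variable {α β γ σ : Type} [Primcodable α] [Primcodable β] [Primcodable γ] [Primcodable σ]
variable {O : Set (ℕ →. ℕ)}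

theorem ci_comp {f : β → σ} {g : α → β} (hf : ComputableIn O f) (hg : ComputableIn O g) :
    ComputableIn O fun a => f (g a) := by
  refine (Nat.RecursiveIn.comp hf hg).of_eq fun n => ?_
  simp only [Part.map_some, Part.bind_eq_bind]
  rcases e : decode (α := α) n with - | a <;> simp [encodek]

theorem ci_pair {f : α → β} {g : α → γ} (hf : ComputableIn O f) (hg : ComputableIn O g) :
    ComputableIn O fun a => (f a, g a) := by
  refine (Nat.RecursiveIn.pair hf hg).of_eq fun n => ?_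
  rcases e : decode (α := α) n with - | a <;> simp [Seq.seq]

theorem nri_prec' {f g h} (hf : Nat.RecursiveIn O f) (hg : Nat.RecursiveIn O g)
    (hh : Nat.RecursiveIn O h) :
    Nat.RecursiveIn O fun a => (f a).bind fun n => n.rec (g a)
      fun y IH => do {let i ← IH; h (Nat.pair a (Nat.pair y i))} :=
  ((Nat.RecursiveIn.prec hg hh).comp
    (Nat.RecursiveIn.pair (Nat.Partrec.some.recursiveIn) hf)).of_eq fun a =>
    Part.ext fun s => by simp [Seq.seq]

theorem ci_nat_rec {f : α → ℕ} {g : α → σ} {h : α → ℕ × σ → σ} (hf : ComputableIn O f)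
    (hg : ComputableIn O g) (hh : ComputableIn₂ O h) :
    ComputableIn O fun a =>
      Nat.rec (motive := fun _ => σ) (g a) (fun y IH => h a (y, IH)) (f a) := by
  refine (nri_prec' hf hg hh).of_eq fun n => ?_
  rcases e : decode (α := α) n with - | a
  · simp
  · simp only [Part.coe_some, Part.bind_some, Part.map_some]
    induction f a <;> simp_all

theorem ci_comp₂ {f : β → γ → σ} {g : α → β} {h : α → γ} (hf : Computable₂ f)
    (hg : ComputableIn O g) (hh : ComputableIn O h) : ComputableIn O fun a => f (g a) (h a) :=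
  ci_comp (f := fun p : β × γ => f p.1 p.2)
    (Computable.computableIn (f := fun p : β × γ => f p.1 p.2) hf) (ci_pair hg hh)

theorem ci_compC {f : β → σ} {g : α → β} (hf : Computable f) (hg : ComputableIn O g) :
    ComputableIn O fun a => f (g a) := ci_comp hf.computableIn hg

theorem ci_fst : ComputableIn O (@Prod.fst α β) := ComputableIn.fst

theorem ci_snd : ComputableIn O (@Prod.snd α β) := ComputableIn.snd

theorem computable_of_ci {f : α → σ} (hf : ComputableIn ∅ f) : Computable f :=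
  recursiveIn_empty_iff.1 hf

end api

/-! ### Combinators -/

/-- bounded universal quantifier -/
def ball (n : ℕ) (q : ℕ → Bool) : Bool :=
  Nat.rec (motive := fun _ => Bool) true (fun k acc => acc && q k) n

theorem ball_iff (n : ℕ) (q : ℕ → Bool) : ball n q = true ↔ ∀ k < n, q k = true := by
  induction n with
  | zero => simp [ball]
  | succ n ih =>
    have : ball (n + 1) q = (ball n q && q n) := rfl
    rw [this, Bool.and_eq_true, ih]
    constructor
    · rintro ⟨h1, h2⟩ k hk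
      rcases Nat.lt_succ_iff_lt_or_eq.1 hk with h | h
      · exact h1 k h
      · exact h ▸ h2
    · intro h
      exact ⟨fun k hk => h k (Nat.lt_succ_of_lt hk), h n (Nat.lt_succ_self n)⟩

/-- finite sum of natural numbers -/
def nsum (n : ℕ) (q : ℕ → ℕ) : ℕ :=
  Nat.rec (motive := fun _ => ℕ) 0 (fun k acc => acc + q k) n

theorem nsum_eq (n : ℕ) (q : ℕ → ℕ) : nsum n q = ∑ k ∈ Finset.range n, q k := by
  induction n with
  | zero => rfl
  | succ n ih => rw [Finset.sum_range_succ, ← ih]; rfl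

section combinators

variable {α : Type} [Primcodable α] {O : Set (ℕ →. ℕ)}

theorem ball_comp {g : α → ℕ} {q : α → ℕ → Bool}
    (hg : ComputableIn O g) (hq : ComputableIn₂ O q) :
    ComputableIn O fun a => ball (g a) (q a) := by
  have h1 : ComputableIn O fun p : α × ℕ × Bool => p.2.2 := ci_comp ci_snd ci_snd
  have h2 : ComputableIn O fun p : α × ℕ × Bool => q p.1 p.2.1 :=
    ci_comp (f := fun p : α × ℕ => q p.1 p.2) hq (ci_pair ci_fst (ci_comp ci_fst ci_snd))
  have h3 : ComputableIn₂ O fun (a : α) (p : ℕ × Bool) => p.2 && q a p.1 :=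
    ci_comp₂ Primrec.and.to_comp h1 h2
  exact ci_nat_rec hg (ComputableIn.const true) h3

theorem nsum_comp {g : α → ℕ} {q : α → ℕ → ℕ}
    (hg : ComputableIn O g) (hq : ComputableIn₂ O q) :
    ComputableIn O fun a => nsum (g a) (q a) := by
  have h1 : ComputableIn O fun p : α × ℕ × ℕ => p.2.2 := ci_comp ci_snd ci_snd
  have h2 : ComputableIn O fun p : α × ℕ × ℕ => q p.1 p.2.1 :=
    ci_comp (f := fun p : α × ℕ => q p.1 p.2) hq (ci_pair ci_fst (ci_comp ci_fst ci_snd))
  have h3 : ComputableIn₂ O fun (a : α) (p : ℕ × ℕ) => p.2 + q a p.1 :=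
    ci_comp₂ Primrec.nat_add.to_comp h1 h2
  exact ci_nat_rec hg (ComputableIn.const 0) h3

theorem cand {f g : α → Bool} (hf : ComputableIn O f) (hg : ComputableIn O g) :
    ComputableIn O fun a => f a && g a := ci_comp₂ Primrec.and.to_comp hf hg

theorem cor {f g : α → Bool} (hf : ComputableIn O f) (hg : ComputableIn O g) :
    ComputableIn O fun a => f a || g a := ci_comp₂ Primrec.or.to_comp hf hg

theorem cnot {f : α → Bool} (hf : ComputableIn O f) : ComputableIn O fun a => !(f a) :=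
  ci_compC Primrec.not.to_comp hf

theorem ceqN {f g : α → ℕ} (hf : ComputableIn O f) (hg : ComputableIn O g) :
    ComputableIn O fun a => decide (f a = g a) := by
  have : Primrec₂ fun m n : ℕ => decide (m = n) := Primrec.eq.decide
  exact ci_comp₂ this.to_comp hf hg

theorem ceqB {f g : α → Bool} (hf : ComputableIn O f) (hg : ComputableIn O g) :
    ComputableIn O fun a => decide (f a = g a) := by
  have : Primrec₂ fun m n : Bool => decide (m = n) := Primrec.eq.decide
  exact ci_comp₂ this.to_comp hf hg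

theorem clt {f g : α → ℕ} (hf : ComputableIn O f) (hg : ComputableIn O g) :
    ComputableIn O fun a => decide (f a < g a) := by
  have : Primrec₂ fun m n : ℕ => decide (m < n) := Primrec.nat_lt.decide
  exact ci_comp₂ this.to_comp hf hg

theorem cle {f g : α → ℕ} (hf : ComputableIn O f) (hg : ComputableIn O g) :
    ComputableIn O fun a => decide (f a ≤ g a) := by
  have : Primrec₂ fun m n : ℕ => decide (m ≤ n) := Primrec.nat_le.decide
  exact ci_comp₂ this.to_comp hf hg

theorem cadd {f g : α → ℕ} (hf : ComputableIn O f) (hg : ComputableIn O g) :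
    ComputableIn O fun a => f a + g a := ci_comp₂ Primrec.nat_add.to_comp hf hg

theorem csub {f g : α → ℕ} (hf : ComputableIn O f) (hg : ComputableIn O g) :
    ComputableIn O fun a => f a - g a := ci_comp₂ Primrec.nat_sub.to_comp hf hg

theorem cmul {f g : α → ℕ} (hf : ComputableIn O f) (hg : ComputableIn O g) :
    ComputableIn O fun a => f a * g a := ci_comp₂ Primrec.nat_mul.to_comp hf hg

theorem cdiv {f g : α → ℕ} (hf : ComputableIn O f) (hg : ComputableIn O g) :
    ComputableIn O fun a => f a / g a := ci_comp₂ Primrec.nat_div.to_comp hf hg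

theorem cmod {f g : α → ℕ} (hf : ComputableIn O f) (hg : ComputableIn O g) :
    ComputableIn O fun a => f a % g a := ci_comp₂ Primrec.nat_mod.to_comp hf hg

theorem cconst {β : Type} [Primcodable β] (b : β) : ComputableIn O fun _ : α => b :=
  ComputableIn.const b

theorem ccond {β : Type} [Primcodable β] {c : α → Bool} {f g : α → β} (hc : ComputableIn O c)
    (hf : ComputableIn O f) (hg : ComputableIn O g) :
    ComputableIn O fun a => bif c a then f a else g a := by
  have h1 : Computable fun p : Bool × β × β => bif p.1 then p.2.1 else p.2.2 :=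
    Computable.cond Computable.fst (Computable.fst.comp Computable.snd)
      (Computable.snd.comp Computable.snd)
  exact ci_compC h1 (ci_pair hc (ci_pair hf hg))

/-- powers, by recursion -/
def pw (b n : ℕ) : ℕ := Nat.rec (motive := fun _ => ℕ) 1 (fun _ r => b * r) n

theorem pw_eq (b n : ℕ) : pw b n = b ^ n := by
  induction n with
  | zero => rfl
  | succ n ih =>
    have : pw b (n + 1) = b * pw b n := rfl
    rw [this, ih, pow_succ, Nat.mul_comm]

theorem cpw (b : ℕ) {f : α → ℕ} (hf : ComputableIn O f) : ComputableIn O fun a => b ^ f a := by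
  have h1 : Computable₂ fun (_ : ℕ) (p : ℕ × ℕ) => b * p.2 :=
    (Primrec.nat_mul.to_comp.comp (Computable.const b) (Computable.snd.comp Computable.snd)).to₂
  have h2 : Computable (pw b) :=
    (Computable.nat_rec Computable.id (Computable.const 1) h1).of_eq fun a => rfl
  have h3 := ci_compC h2 hf
  have h4 : (fun a => pw b (f a)) = fun a => b ^ f a := funext fun a => pw_eq b (f a)
  rw [← h4]
  exact h3

/-- factorials, by recursion -/
def fct (n : ℕ) : ℕ := Nat.rec (motive := fun _ => ℕ) 1 (fun k r => (k + 1) * r) n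

theorem fct_eq (n : ℕ) : fct n = n.factorial := by
  induction n with
  | zero => rfl
  | succ n ih =>
    have : fct (n + 1) = (n + 1) * fct n := rfl
    rw [this, ih, Nat.factorial_succ]

theorem cfct {f : α → ℕ} (hf : ComputableIn O f) : ComputableIn O fun a => (f a).factorial := by
  have h1 : Computable₂ fun (_ : ℕ) (p : ℕ × ℕ) => (p.1 + 1) * p.2 :=
    (Primrec.nat_mul.to_comp.comp
      (Primrec.nat_add.to_comp.comp (Computable.fst.comp Computable.snd) (Computable.const 1))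
      (Computable.snd.comp Computable.snd)).to₂
  have h2 : Computable fct :=
    (Computable.nat_rec Computable.id (Computable.const 1) h1).of_eq fun a => rfl
  have h3 := ci_compC h2 hf
  have h4 : (fun a => fct (f a)) = fun a => (f a).factorial := funext fun a => fct_eq (f a)
  rw [← h4]
  exact h3

theorem cpair {f g : α → ℕ} (hf : ComputableIn O f) (hg : ComputableIn O g) :
    ComputableIn O fun a => Nat.pair (f a) (g a) := ci_comp₂ Primrec₂.natPair.to_comp hf hg

theorem cunl {f : α → ℕ} (hf : ComputableIn O f) : ComputableIn O fun a => (Nat.unpair (f a)).1 :=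
  ci_compC (f := fun n : ℕ => (Nat.unpair n).1) (Primrec.fst.comp Primrec.unpair).to_comp hf

theorem cunr {f : α → ℕ} (hf : ComputableIn O f) : ComputableIn O fun a => (Nat.unpair (f a)).2 :=
  ci_compC (f := fun n : ℕ => (Nat.unpair n).2) (Primrec.snd.comp Primrec.unpair).to_comp hf

/-- indicator of a Boolean -/
def ind (b : Bool) : ℕ := bif b then 1 else 0

theorem cind {f : α → Bool} (hf : ComputableIn O f) : ComputableIn O fun a => ind (f a) :=
  ccond hf (cconst 1) (cconst 0)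

end combinators

/-! ### Arithmetic helpers -/

theorem ind_true {b : Bool} (h : b = true) : ind b = 1 := by subst h; rfl

theorem ind_false {b : Bool} (h : b = false) : ind b = 0 := by subst h; rfl

theorem nsum_ind (n : ℕ) (q : ℕ → Bool) :
    nsum n (fun k => ind (q k)) = ((Finset.range n).filter (fun k => q k = true)).card := by
  rw [nsum_eq, Finset.card_filter]
  refine Finset.sum_congr rfl fun k _ => ?_
  cases q k <;> simp [ind]

/-- integer logarithm -/
def lgb (b m : ℕ) : ℕ := nsum (m + 1) fun k => ind (decide (b ^ (k + 1) ≤ m))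

theorem lgb_eq {b m k : ℕ} (hb : 2 ≤ b) (h1 : b ^ k ≤ m) (h2 : m < b ^ (k + 1)) :
    lgb b m = k := by
  unfold lgb
  rw [nsum_ind]
  have : (Finset.range (m + 1)).filter (fun l => decide (b ^ (l + 1) ≤ m) = true)
      = Finset.range k := by
    ext l
    simp only [Finset.mem_filter, Finset.mem_range, decide_eq_true_eq]
    constructor
    · rintro ⟨-, h⟩
      by_contra hc
      have h3 : b ^ (k + 1) ≤ b ^ (l + 1) := Nat.pow_le_pow_right (by omega) (by omega)
      omega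
    · intro h
      have h3 : b ^ (l + 1) ≤ b ^ k := Nat.pow_le_pow_right (by omega) (by omega)
      refine ⟨?_, by omega⟩
      have h4 : l + 1 < b ^ (l + 1) := Nat.lt_pow_self (by omega)
      omega
  rw [this, Finset.card_range]

theorem clgb {α : Type} [Primcodable α] {O : Set (ℕ →. ℕ)} (b : ℕ) {f : α → ℕ}
    (hf : ComputableIn O f) : ComputableIn O fun a => lgb b (f a) := by
  refine nsum_comp (cadd hf (cconst 1)) ?_
  exact cind (cle (cpw b (cadd ci_snd (cconst 1))) (ci_comp hf ci_fst))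

/-- code of the values `z 1, ..., z N` -/
def code (z : ℕ → ℕ) (N : ℕ) : ℕ := nsum N fun m => z (m + 1) * 2 ^ (m + 1).factorial

/-- decoding -/
def dig (c m : ℕ) : ℕ := c / 2 ^ m.factorial % 2 ^ m.factorial

theorem code_succ (z : ℕ → ℕ) (N : ℕ) :
    code z (N + 1) = code z N + z (N + 1) * 2 ^ (N + 1).factorial := rfl

theorem code_lt {z : ℕ → ℕ} (hz : ∀ m, z m < 2 ^ m.factorial) (N : ℕ) :
    code z N < 2 ^ (N + 1).factorial := by
  induction N with
  | zero => simp [code, nsum]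
  | succ N ih =>
    rw [code_succ]
    have h1 := hz (N + 1)
    have h2 : 2 ^ (N + 1).factorial * 2 ^ (N + 1).factorial ≤ 2 ^ (N + 1 + 1).factorial := by
      rw [← pow_add]
      apply Nat.pow_le_pow_right (by norm_num)
      rw [Nat.factorial_succ (N + 1)]
      have := Nat.factorial_pos (N + 1)
      nlinarith
    have h3 : z (N + 1) + 1 ≤ 2 ^ (N + 1).factorial := h1
    calc code z N + z (N + 1) * 2 ^ (N + 1).factorial
        < 2 ^ (N + 1).factorial + z (N + 1) * 2 ^ (N + 1).factorial := by omega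
      _ = (z (N + 1) + 1) * 2 ^ (N + 1).factorial := by ring
      _ ≤ 2 ^ (N + 1).factorial * 2 ^ (N + 1).factorial := Nat.mul_le_mul_right _ h3
      _ ≤ _ := h2

theorem dig_code {z : ℕ → ℕ} (hz : ∀ m, z m < 2 ^ m.factorial) (N m : ℕ) (h1 : 1 ≤ m)
    (h2 : m ≤ N) : dig (code z N) m = z m := by
  induction N with
  | zero => omega
  | succ N ih =>
    rw [code_succ]
    unfold dig
    rcases Nat.lt_or_ge m (N + 1) with h | h
    · have h3 : 2 * m.factorial ≤ (N + 1).factorial := by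
        rw [Nat.factorial_succ]
        have h4 : m.factorial ≤ N.factorial := Nat.factorial_le (by omega)
        have h5 := Nat.factorial_pos N
        nlinarith
      obtain ⟨d, hd⟩ : ∃ d, (N + 1).factorial = m.factorial + (m.factorial + d) :=
        ⟨(N + 1).factorial - 2 * m.factorial, by omega⟩
      have e1 : code z N + z (N + 1) * 2 ^ (N + 1).factorial
          = code z N + 2 ^ m.factorial * (2 ^ m.factorial * (z (N + 1) * 2 ^ d)) := by
        rw [hd, pow_add, pow_add]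
        ring
      rw [e1, Nat.add_mul_div_left _ _ (by positivity), Nat.add_mul_mod_self_left]
      exact ih (by omega)
    · have e : m = N + 1 := by omega
      subst e
      rw [Nat.add_mul_div_right _ _ (by positivity), Nat.div_eq_of_lt (code_lt hz N), zero_add]
      exact Nat.mod_eq_of_lt (hz _)

theorem ccode {α : Type} [Primcodable α] {O : Set (ℕ →. ℕ)} {z : ℕ → ℕ}
    (hz : ComputableIn O z) {f : α → ℕ} (hf : ComputableIn O f) :
    ComputableIn O fun a => code z (f a) := by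
  refine nsum_comp hf ?_
  exact cmul (ci_comp hz (cadd ci_snd (cconst 1))) (cpw 2 (cfct (cadd ci_snd (cconst 1))))

theorem cdig {α : Type} [Primcodable α] {O : Set (ℕ →. ℕ)} {f g : α → ℕ}
    (hf : ComputableIn O f) (hg : ComputableIn O g) : ComputableIn O fun a => dig (f a) (g a) :=
  cmod (cdiv hf (cpw 2 (cfct hg))) (cpw 2 (cfct hg))

/-! ### Selecting few candidates -/

/-- number of earlier elements of the block `[4^j, 4^(j+1))` with property `r` -/
def rk (r : ℕ → ℕ → Bool) (j n : ℕ) : ℕ := nsum n fun k => ind (decide (4 ^ j ≤ k) && r j k)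

/-- the elements of the block with property `r` -/
def RS (r : ℕ → ℕ → Bool) (j : ℕ) : Finset ℕ :=
  (Finset.Ico (4 ^ j) (4 ^ (j + 1))).filter fun k => r j k = true

/-- use the `i`-th element of the block with property `r` to define the value at `2^(j+1) + i` -/
def sel (r : ℕ → ℕ → Bool) (v : ℕ → ℕ → ℕ) (m : ℕ) : ℕ :=
  nsum (4 ^ (lgb 2 m - 1 + 1)) fun k =>
    ind ((decide (4 ^ (lgb 2 m - 1) ≤ k) && r (lgb 2 m - 1) k) &&
      decide (rk r (lgb 2 m - 1) k = m - 2 ^ (lgb 2 m - 1 + 1))) * v k m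

theorem rk_eq (r : ℕ → ℕ → Bool) (j n : ℕ) (hn : n ≤ 4 ^ (j + 1)) :
    rk r j n = ((RS r j).filter (· < n)).card := by
  unfold rk RS
  rw [nsum_ind]
  congr 1
  ext k
  simp only [Finset.mem_filter, Finset.mem_range, Finset.mem_Ico, Bool.and_eq_true,
    decide_eq_true_eq]
  constructor
  · rintro ⟨h1, h2, h3⟩
    exact ⟨⟨⟨h2, by omega⟩, h3⟩, h1⟩
  · rintro ⟨⟨⟨h2, -⟩, h3⟩, h1⟩
    exact ⟨h1, h2, h3⟩

theorem rk_lt (r : ℕ → ℕ → Bool) (j n : ℕ) (hn : n ∈ RS r j) : rk r j n < (RS r j).card := by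
  have h : n < 4 ^ (j + 1) := (Finset.mem_Ico.1 (Finset.mem_filter.1 hn).1).2
  rw [rk_eq r j n h.le]
  apply Finset.card_lt_card
  refine ⟨Finset.filter_subset _ _, fun h1 => ?_⟩
  have := (Finset.mem_filter.1 (h1 hn)).2
  exact lt_irrefl _ this

theorem rk_mono (r : ℕ → ℕ → Bool) (j n n' : ℕ) (hn : n ∈ RS r j) (hn' : n' ∈ RS r j)
    (h : n < n') : rk r j n < rk r j n' := by
  have h1 : n < 4 ^ (j + 1) := (Finset.mem_Ico.1 (Finset.mem_filter.1 hn).1).2
  have h2 : n' < 4 ^ (j + 1) := (Finset.mem_Ico.1 (Finset.mem_filter.1 hn').1).2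
  rw [rk_eq r j n h1.le, rk_eq r j n' h2.le]
  apply Finset.card_lt_card
  refine ⟨fun k hk => ?_, fun h3 => ?_⟩
  · rw [Finset.mem_filter] at hk ⊢
    exact ⟨hk.1, by omega⟩
  · have := (Finset.mem_filter.1 (h3 (Finset.mem_filter.2 ⟨hn, h⟩))).2
    exact lt_irrefl _ this

theorem sel_eq (r : ℕ → ℕ → Bool) (v : ℕ → ℕ → ℕ) (j n : ℕ) (hn : n ∈ RS r j)
    (hq : (RS r j).card ≤ 2 ^ (j + 1)) :
    sel r v (2 ^ (j + 1) + rk r j n) = v n (2 ^ (j + 1) + rk r j n) := by
  have h1 := rk_lt r j n hn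
  obtain ⟨m, hm⟩ : ∃ m, m = 2 ^ (j + 1) + rk r j n := ⟨_, rfl⟩
  rw [← hm]
  have h2 : lgb 2 m = j + 1 := by
    apply lgb_eq (le_refl 2)
    · omega
    · rw [pow_succ 2 (j + 1)]
      omega
  unfold sel
  rw [h2, Nat.add_sub_cancel, nsum_eq]
  have hn1 : n < 4 ^ (j + 1) := (Finset.mem_Ico.1 (Finset.mem_filter.1 hn).1).2
  have hn0 : 4 ^ j ≤ n := (Finset.mem_Ico.1 (Finset.mem_filter.1 hn).1).1
  have hnr : r j n = true := (Finset.mem_filter.1 hn).2
  rw [Finset.sum_eq_single n]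
  · rw [ind_true, one_mul]
    rw [Bool.and_eq_true, Bool.and_eq_true]
    refine ⟨⟨by simpa using hn0, hnr⟩, ?_⟩
    rw [decide_eq_true_eq]
    omega
  · intro k hk hkn
    rw [ind_false, zero_mul]
    rw [← Bool.not_eq_true, Bool.and_eq_true, Bool.and_eq_true, decide_eq_true_eq,
      decide_eq_true_eq]
    rintro ⟨⟨h3, h4⟩, h5⟩
    have hk' : k ∈ RS r j :=
      Finset.mem_filter.2 ⟨Finset.mem_Ico.2 ⟨h3, Finset.mem_range.1 hk⟩, h4⟩
    rcases Nat.lt_or_gt_of_ne hkn with h6 | h6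
    · have := rk_mono r j k n hk' hn h6
      omega
    · have := rk_mono r j n k hn hk' h6
      omega
  · intro h
    exact absurd (Finset.mem_range.2 hn1) h

theorem csel {O : Set (ℕ →. ℕ)} {r : ℕ → ℕ → Bool} {v : ℕ → ℕ → ℕ}
    (hr : ComputableIn₂ O r) (hv : ComputableIn₂ O v) : ComputableIn O (sel r v) := by
  have hj : ComputableIn O fun m : ℕ => lgb 2 m - 1 :=
    csub (clgb 2 (f := fun m : ℕ => m) ComputableIn.id) (cconst 1)
  have hj' : ComputableIn O fun p : ℕ × ℕ => lgb 2 p.1 - 1 :=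
    ci_comp (f := fun m : ℕ => lgb 2 m - 1) hj ci_fst
  have hr' : ComputableIn O fun p : ℕ × ℕ => r p.1 p.2 := hr
  have hv' : ComputableIn O fun p : ℕ × ℕ => v p.1 p.2 := hv
  have h41 : ComputableIn O fun p : (ℕ × ℕ) × ℕ => 4 ^ p.1.1 :=
    cpw 4 (f := fun p : (ℕ × ℕ) × ℕ => p.1.1) (ci_comp ci_fst ci_fst)
  have h42 : ComputableIn O fun p : (ℕ × ℕ) × ℕ => r p.1.1 p.2 :=
    ci_comp (f := fun p : ℕ × ℕ => r p.1 p.2) (g := fun p : (ℕ × ℕ) × ℕ => (p.1.1, p.2)) hr'
      (ci_pair (ci_comp ci_fst ci_fst) ci_snd)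
  have h43 : ComputableIn₂ O fun (p : ℕ × ℕ) (k : ℕ) => ind (decide (4 ^ p.1 ≤ k) && r p.1 k) :=
    cind (f := fun p : (ℕ × ℕ) × ℕ => (decide (4 ^ p.1.1 ≤ p.2) && r p.1.1 p.2))
      (cand (cle h41 ci_snd) h42)
  have hrk : ComputableIn O fun p : ℕ × ℕ => rk r p.1 p.2 :=
    nsum_comp (g := fun p : ℕ × ℕ => p.2)
      (q := fun (p : ℕ × ℕ) (k : ℕ) => ind (decide (4 ^ p.1 ≤ k) && r p.1 k)) ci_snd h43
  have h1 : ComputableIn O fun p : ℕ × ℕ => 4 ^ (lgb 2 p.1 - 1) :=
    cpw 4 (f := fun p : ℕ × ℕ => lgb 2 p.1 - 1) hj'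
  have h2 : ComputableIn O fun p : ℕ × ℕ => decide (4 ^ (lgb 2 p.1 - 1) ≤ p.2) := cle h1 ci_snd
  have h3 : ComputableIn O fun p : ℕ × ℕ => r (lgb 2 p.1 - 1) p.2 :=
    ci_comp (f := fun p : ℕ × ℕ => r p.1 p.2) (g := fun p : ℕ × ℕ => (lgb 2 p.1 - 1, p.2)) hr'
      (ci_pair hj' ci_snd)
  have h4 : ComputableIn O fun p : ℕ × ℕ => rk r (lgb 2 p.1 - 1) p.2 :=
    ci_comp (f := fun p : ℕ × ℕ => rk r p.1 p.2) (g := fun p : ℕ × ℕ => (lgb 2 p.1 - 1, p.2)) hrk
      (ci_pair hj' ci_snd)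
  have h5 : ComputableIn O fun p : ℕ × ℕ => p.1 - 2 ^ (lgb 2 p.1 - 1 + 1) :=
    csub ci_fst (cpw 2 (f := fun p : ℕ × ℕ => lgb 2 p.1 - 1 + 1) (cadd hj' (cconst 1)))
  have h6 : ComputableIn O fun p : ℕ × ℕ =>
      decide (rk r (lgb 2 p.1 - 1) p.2 = p.1 - 2 ^ (lgb 2 p.1 - 1 + 1)) := ceqN h4 h5
  have h7 : ComputableIn O fun p : ℕ × ℕ => v p.2 p.1 :=
    ci_comp (f := fun p : ℕ × ℕ => v p.1 p.2) (g := fun p : ℕ × ℕ => (p.2, p.1)) hv'
      (ci_pair ci_snd ci_fst)
  have h8 : ComputableIn O fun p : ℕ × ℕ =>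
      ind ((decide (4 ^ (lgb 2 p.1 - 1) ≤ p.2) && r (lgb 2 p.1 - 1) p.2) &&
      decide (rk r (lgb 2 p.1 - 1) p.2 = p.1 - 2 ^ (lgb 2 p.1 - 1 + 1))) * v p.2 p.1 :=
    cmul (cind (cand (cand h2 h3) h6)) h7
  have h9 : ComputableIn O fun m : ℕ => 4 ^ (lgb 2 m - 1 + 1) :=
    cpw 4 (f := fun m : ℕ => lgb 2 m - 1 + 1) (cadd hj (cconst 1))
  exact nsum_comp (g := fun m : ℕ => 4 ^ (lgb 2 m - 1 + 1))
    (q := fun m k => ind ((decide (4 ^ (lgb 2 m - 1) ≤ k) && r (lgb 2 m - 1) k) &&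
      decide (rk r (lgb 2 m - 1) k = m - 2 ^ (lgb 2 m - 1 + 1))) * v k m) h9 h8

/-! ### The two functionals -/

section main

/-- `n` is the first place of its block where the value `x n` is proposed -/
def fx (x : ℕ → ℕ) (j n : ℕ) : Bool :=
  ball n fun k => !(decide (4 ^ j ≤ k) && decide (x k = x n))

/-- `n` is the first place of its block where the first component of `x n` is proposed -/
def fa (x : ℕ → ℕ) (j n : ℕ) : Bool :=
  ball n fun k => !(decide (4 ^ j ≤ k) && decide ((Nat.unpair (x k)).1 = (Nat.unpair (x n)).1))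

/-- number of different values with first component `a` which are proposed in the block -/
def supp (x : ℕ → ℕ) (j a : ℕ) : ℕ :=
  nsum (4 ^ (j + 1)) fun k =>
    ind ((decide (4 ^ j ≤ k) && fx x j k) && decide ((Nat.unpair (x k)).1 = a))

/-- first places of well supported first components -/
def r1 (x : ℕ → ℕ) (j n : ℕ) : Bool :=
  fa x j n && decide (2 ^ (j + 1) < supp x j (Nat.unpair (x n)).1)

/-- first places of values whose first component is `c j` -/
def r2 (x c : ℕ → ℕ) (j n : ℕ) : Bool := fx x j n && decide ((Nat.unpair (x n)).1 = c j)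

theorem cfx {O : Set (ℕ →. ℕ)} {x : ℕ → ℕ} (hx : ComputableIn O x) : ComputableIn₂ O (fx x) := by
  have h1 : ComputableIn O fun p : (ℕ × ℕ) × ℕ => decide (4 ^ p.1.1 ≤ p.2) :=
    cle (cpw 4 (f := fun p : (ℕ × ℕ) × ℕ => p.1.1) (ci_comp ci_fst ci_fst)) ci_snd
  have h2 : ComputableIn O fun p : (ℕ × ℕ) × ℕ => decide (x p.2 = x p.1.2) :=
    ceqN (ci_comp (f := x) hx ci_snd) (ci_comp (f := x) hx (ci_comp ci_snd ci_fst))
  exact ball_comp (g := fun p : ℕ × ℕ => p.2)
    (q := fun (p : ℕ × ℕ) (k : ℕ) => !(decide (4 ^ p.1 ≤ k) && decide (x k = x p.2)))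
    ci_snd (cnot (cand h1 h2))

theorem cfa {O : Set (ℕ →. ℕ)} {x : ℕ → ℕ} (hx : ComputableIn O x) : ComputableIn₂ O (fa x) := by
  have h1 : ComputableIn O fun p : (ℕ × ℕ) × ℕ => decide (4 ^ p.1.1 ≤ p.2) :=
    cle (cpw 4 (f := fun p : (ℕ × ℕ) × ℕ => p.1.1) (ci_comp ci_fst ci_fst)) ci_snd
  have h2 : ComputableIn O fun p : (ℕ × ℕ) × ℕ =>
      decide ((Nat.unpair (x p.2)).1 = (Nat.unpair (x p.1.2)).1) :=
    ceqN (cunl (ci_comp (f := x) hx ci_snd)) (cunl (ci_comp (f := x) hx (ci_comp ci_snd ci_fst)))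
  exact ball_comp (g := fun p : ℕ × ℕ => p.2)
    (q := fun (p : ℕ × ℕ) (k : ℕ) =>
      !(decide (4 ^ p.1 ≤ k) && decide ((Nat.unpair (x k)).1 = (Nat.unpair (x p.2)).1)))
    ci_snd (cnot (cand h1 h2))

theorem csupp {O : Set (ℕ →. ℕ)} {x : ℕ → ℕ} (hx : ComputableIn O x) :
    ComputableIn₂ O (supp x) := by
  have h0 : ComputableIn O fun p : ℕ × ℕ => 4 ^ (p.1 + 1) :=
    cpw 4 (f := fun p : ℕ × ℕ => p.1 + 1) (cadd ci_fst (cconst 1))
  have h1 : ComputableIn O fun p : (ℕ × ℕ) × ℕ => decide (4 ^ p.1.1 ≤ p.2) :=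
    cle (cpw 4 (f := fun p : (ℕ × ℕ) × ℕ => p.1.1) (ci_comp ci_fst ci_fst)) ci_snd
  have h2 : ComputableIn O fun p : (ℕ × ℕ) × ℕ => fx x p.1.1 p.2 :=
    ci_comp (f := fun p : ℕ × ℕ => fx x p.1 p.2) (g := fun p : (ℕ × ℕ) × ℕ => (p.1.1, p.2))
      (cfx hx) (ci_pair (ci_comp ci_fst ci_fst) ci_snd)
  have h3 : ComputableIn O fun p : (ℕ × ℕ) × ℕ => decide ((Nat.unpair (x p.2)).1 = p.1.2) :=
    ceqN (cunl (ci_comp (f := x) hx ci_snd)) (ci_comp ci_snd ci_fst)
  exact nsum_comp (g := fun p : ℕ × ℕ => 4 ^ (p.1 + 1))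
    (q := fun (p : ℕ × ℕ) (k : ℕ) =>
      ind ((decide (4 ^ p.1 ≤ k) && fx x p.1 k) && decide ((Nat.unpair (x k)).1 = p.2)))
    h0 (cind (cand (cand h1 h2) h3))

theorem cr1 {O : Set (ℕ →. ℕ)} {x : ℕ → ℕ} (hx : ComputableIn O x) : ComputableIn₂ O (r1 x) := by
  have h1 : ComputableIn O fun p : ℕ × ℕ => fa x p.1 p.2 := cfa hx
  have h2 : ComputableIn O fun p : ℕ × ℕ => 2 ^ (p.1 + 1) :=
    cpw 2 (f := fun p : ℕ × ℕ => p.1 + 1) (cadd ci_fst (cconst 1))
  have h3 : ComputableIn O fun p : ℕ × ℕ => supp x p.1 (Nat.unpair (x p.2)).1 :=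
    ci_comp (f := fun p : ℕ × ℕ => supp x p.1 p.2)
      (g := fun p : ℕ × ℕ => (p.1, (Nat.unpair (x p.2)).1)) (csupp hx)
      (ci_pair ci_fst (cunl (ci_comp (f := x) hx ci_snd)))
  exact cand h1 (clt h2 h3)

theorem cr2 {O : Set (ℕ →. ℕ)} {x c : ℕ → ℕ} (hx : ComputableIn O x) (hc : ComputableIn O c) :
    ComputableIn₂ O (r2 x c) := by
  have h1 : ComputableIn O fun p : ℕ × ℕ => fx x p.1 p.2 := cfx hx
  have h2 : ComputableIn O fun p : ℕ × ℕ => decide ((Nat.unpair (x p.2)).1 = c p.1) :=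
    ceqN (cunl (ci_comp (f := x) hx ci_snd)) (ci_comp (f := c) hc ci_fst)
  exact cand h1 h2

theorem fx_iff (x : ℕ → ℕ) (j n : ℕ) :
    fx x j n = true ↔ ∀ k < n, 4 ^ j ≤ k → x k ≠ x n := by
  unfold fx
  rw [ball_iff]
  simp only [Bool.not_eq_true', Bool.and_eq_false_iff, decide_eq_false_iff_not]
  refine forall₂_congr fun k _ => ?_
  rw [imp_iff_not_or]

theorem fa_iff (x : ℕ → ℕ) (j n : ℕ) :
    fa x j n = true ↔ ∀ k < n, 4 ^ j ≤ k → (Nat.unpair (x k)).1 ≠ (Nat.unpair (x n)).1 := by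
  unfold fa
  rw [ball_iff]
  simp only [Bool.not_eq_true', Bool.and_eq_false_iff, decide_eq_false_iff_not]
  refine forall₂_congr fun k _ => ?_
  rw [imp_iff_not_or]

theorem supp_eq (x : ℕ → ℕ) (j a : ℕ) : supp x j a = ((Finset.Ico (4 ^ j) (4 ^ (j + 1))).filter
    fun k => fx x j k = true ∧ (Nat.unpair (x k)).1 = a).card := by
  unfold supp
  rw [nsum_ind]
  congr 1
  ext k
  simp only [Finset.mem_filter, Finset.mem_range, Finset.mem_Ico, Bool.and_eq_true,
    decide_eq_true_eq]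
  tauto

theorem card_r2 (x c : ℕ → ℕ) (j : ℕ) : (RS (r2 x c) j).card = supp x j (c j) := by
  rw [supp_eq]
  unfold RS r2
  congr 1
  ext k
  simp only [Finset.mem_filter, Bool.and_eq_true, decide_eq_true_eq]

theorem card_r1 (x : ℕ → ℕ) (j : ℕ) : (RS (r1 x) j).card ≤ 2 ^ (j + 1) := by
  classical
  obtain ⟨I, hI⟩ : ∃ I, I = Finset.Ico (4 ^ j) (4 ^ (j + 1)) := ⟨_, rfl⟩
  let t : ℕ → Finset ℕ := fun n =>
    I.filter fun k => fx x j k = true ∧ (Nat.unpair (x k)).1 = (Nat.unpair (x n)).1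
  have hmem : ∀ n ∈ RS (r1 x) j, 4 ^ j ≤ n ∧ n < 4 ^ (j + 1) ∧ fa x j n = true ∧
      2 ^ (j + 1) < supp x j (Nat.unpair (x n)).1 := by
    intro n hn
    unfold RS r1 at hn
    simp only [Finset.mem_filter, Finset.mem_Ico, Bool.and_eq_true, decide_eq_true_eq] at hn
    exact ⟨hn.1.1, hn.1.2, hn.2.1, hn.2.2⟩
  have hdisj : ∀ n ∈ RS (r1 x) j, ∀ n' ∈ RS (r1 x) j, n ≠ n' → Disjoint (t n) (t n') := by
    intro n hn n' hn' hne
    rw [Finset.disjoint_left]
    intro k hk hk'
    have h1 := (Finset.mem_filter.1 hk).2.2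
    have h2 := (Finset.mem_filter.1 hk').2.2
    rw [h1] at h2
    obtain ⟨a1, -, a3, -⟩ := hmem n hn
    obtain ⟨b1, -, b3, -⟩ := hmem n' hn'
    rcases Nat.lt_or_gt_of_ne hne with h | h
    · exact (fa_iff x j n').1 b3 n h a1 h2
    · exact (fa_iff x j n).1 a3 n' h b1 h2.symm
  have h1 : ((RS (r1 x) j).biUnion t).card = ∑ n ∈ RS (r1 x) j, (t n).card :=
    Finset.card_biUnion hdisj
  have h2 : ((RS (r1 x) j).biUnion t).card ≤ I.card := by
    apply Finset.card_le_card
    intro k hk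
    rw [Finset.mem_biUnion] at hk
    obtain ⟨n, -, hn⟩ := hk
    exact (Finset.mem_filter.1 hn).1
  have h3 : (RS (r1 x) j).card * (2 ^ (j + 1) + 1) ≤ ∑ n ∈ RS (r1 x) j, (t n).card := by
    rw [← smul_eq_mul, ← Finset.sum_const]
    apply Finset.sum_le_sum
    intro n hn
    have h4 := (hmem n hn).2.2.2
    rw [supp_eq] at h4
    have h5 : (t n) = (Finset.Ico (4 ^ j) (4 ^ (j + 1))).filter
      fun k => fx x j k = true ∧ (Nat.unpair (x k)).1 = (Nat.unpair (x n)).1 := by
      rw [← hI]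
    rw [h5]
    omega
  have h4 : I.card ≤ 2 ^ (j + 1) * 2 ^ (j + 1) := by
    rw [hI, Nat.card_Ico, ← mul_pow]
    exact Nat.sub_le _ _
  by_contra hc
  push Not at hc
  have h5 : 2 ^ (j + 1) * 2 ^ (j + 1) < (RS (r1 x) j).card * (2 ^ (j + 1) + 1) := by
    have h6 : 0 < 2 ^ (j + 1) := by positivity
    nlinarith
  omega

/-- the proposals for the target `z` -/
def cz (z : ℕ → ℕ) (j : ℕ) : ℕ := code z (2 ^ (j + 2) - 1)

theorem ccz {O : Set (ℕ →. ℕ)} {z : ℕ → ℕ} (hz : ComputableIn O z) : ComputableIn O (cz z) :=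
  ccode hz (f := fun j : ℕ => 2 ^ (j + 2) - 1)
    (csub (cpw 2 (f := fun j : ℕ => j + 2) (cadd ComputableIn.id (cconst 2))) (cconst 1))

theorem dig_cz {z : ℕ → ℕ} (hz : ∀ m, z m < 2 ^ m.factorial) (j m : ℕ) (h1 : 2 ^ (j + 1) ≤ m)
    (h2 : m < 2 ^ (j + 1) + 2 ^ (j + 1)) : dig (cz z j) m = z m := by
  have h3 : 2 ^ (j + 2) = 2 ^ (j + 1) + 2 ^ (j + 1) := by ring
  have h4 : 0 < 2 ^ (j + 1) := by positivity
  exact dig_code hz _ m (by omega) (by omega)

theorem fact_bound (j : ℕ) (hj : 6 ≤ j) : 2 * (2 ^ (j + 2)).factorial ≤ 2 ^ (4 ^ j) := by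
  have h1 : 1 + (j + 2) * 2 ^ (j + 2) ≤ 4 ^ j := by
    induction j, hj using Nat.le_induction with
    | base => norm_num
    | succ j hj ih =>
      have e1 : 1 + (j + 1 + 2) * 2 ^ (j + 1 + 2) ≤ 4 * (1 + (j + 2) * 2 ^ (j + 2)) := by
        have : 2 ^ (j + 1 + 2) = 2 * 2 ^ (j + 2) := by ring
        rw [this]
        nlinarith [Nat.zero_le (2 ^ (j + 2)), Nat.zero_le (j * 2 ^ (j + 2))]
      calc _ ≤ 4 * (1 + (j + 2) * 2 ^ (j + 2)) := e1
        _ ≤ 4 * 4 ^ j := Nat.mul_le_mul_left _ ih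
        _ = 4 ^ (j + 1) := by ring
  calc 2 * (2 ^ (j + 2)).factorial ≤ 2 * (2 ^ (j + 2)) ^ (2 ^ (j + 2)) :=
        Nat.mul_le_mul_left _ (Nat.factorial_le_pow _)
    _ = 2 ^ (1 + (j + 2) * 2 ^ (j + 2)) := by
        rw [← pow_mul, pow_add 2 1, pow_one]
    _ ≤ 2 ^ (4 ^ j) := Nat.pow_le_pow_right (by norm_num) h1

theorem pair_bound {z1 z2 : ℕ → ℕ} (h1 : ∀ m, z1 m < 2 ^ m.factorial)
    (h2 : ∀ m, z2 m < 2 ^ m.factorial) (j n : ℕ) (hj : 6 ≤ j) (hn : 4 ^ j ≤ n) :
    Nat.pair (cz z1 j) (cz z2 j) < 2 ^ (2 ^ n) := by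
  have e : 2 ^ (j + 2) - 1 + 1 = 2 ^ (j + 2) := Nat.sub_add_cancel (Nat.one_le_two_pow)
  have h3 : cz z1 j < 2 ^ (2 ^ (j + 2)).factorial := by
    have := code_lt h1 (2 ^ (j + 2) - 1)
    rwa [e] at this
  have h4 : cz z2 j < 2 ^ (2 ^ (j + 2)).factorial := by
    have := code_lt h2 (2 ^ (j + 2) - 1)
    rwa [e] at this
  calc Nat.pair (cz z1 j) (cz z2 j) < (max (cz z1 j) (cz z2 j) + 1) ^ 2 :=
        Nat.pair_lt_max_add_one_sq _ _
    _ ≤ (2 ^ (2 ^ (j + 2)).factorial) ^ 2 := Nat.pow_le_pow_left (by omega) 2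
    _ = 2 ^ (2 * (2 ^ (j + 2)).factorial) := by rw [← pow_mul, mul_comm]
    _ ≤ 2 ^ (2 ^ n) := by
        apply Nat.pow_le_pow_right (by norm_num)
        exact (fact_bound j hj).trans (Nat.pow_le_pow_right (by norm_num) hn)

/-- `x` agrees infinitely often with every computable function below `h` -/
def Ioe (h x : ℕ → ℕ) : Prop :=
  ∀ y : ℕ → ℕ, Computable y → (∀ n, y n < h n) → ∃ᶠ n in Filter.atTop, x n = y n

theorem main_step {O : Set (ℕ →. ℕ)} {x : ℕ → ℕ} (hx : ComputableIn O x)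
    (hI : Ioe (fun n => 2 ^ (2 ^ n)) x) :
    ∃ g, ComputableIn O g ∧ Ioe (fun n => 2 ^ n.factorial) g := by
  have hx1 : ComputableIn O fun n => (Nat.unpair (x n)).1 := cunl hx
  have hx2 : ComputableIn O fun n => (Nat.unpair (x n)).2 := cunr hx
  obtain ⟨g1, hg1⟩ : ∃ g1, g1 = sel (r1 x) (fun n m => dig (Nat.unpair (x n)).1 m) := ⟨_, rfl⟩
  have hg1c : ComputableIn O g1 := by
    rw [hg1]
    refine csel (cr1 hx) ?_
    exact cdig (ci_comp (f := fun n => (Nat.unpair (x n)).1) hx1 ci_fst) ci_snd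
  by_cases hcase : Ioe (fun n => 2 ^ n.factorial) g1
  · exact ⟨g1, hg1c, hcase⟩
  unfold Ioe at hcase
  push Not at hcase
  obtain ⟨z1, hz1c, hz1b, hz1⟩ := hcase
  rw [Filter.eventually_atTop] at hz1
  obtain ⟨M, hM⟩ := hz1
  -- the code of `z1` is proposed at most `2^(j+1)` times
  have key : ∀ j, M ≤ 2 ^ (j + 1) → (RS (r2 x (cz z1)) j).card ≤ 2 ^ (j + 1) := by
    intro j hj
    rw [card_r2]
    by_contra hc
    push Not at hc
    have hne : ∃ k, 4 ^ j ≤ k ∧ (Nat.unpair (x k)).1 = cz z1 j := by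
      rw [supp_eq] at hc
      have h1 : 0 < ((Finset.Ico (4 ^ j) (4 ^ (j + 1))).filter
        fun k => fx x j k = true ∧ (Nat.unpair (x k)).1 = cz z1 j).card := by omega
      obtain ⟨k, hk⟩ := Finset.card_pos.1 h1
      rw [Finset.mem_filter, Finset.mem_Ico] at hk
      exact ⟨k, hk.1.1, hk.2.2⟩
    have hlt : Nat.find hne < 4 ^ (j + 1) := by
      rw [supp_eq] at hc
      have h1 : 0 < ((Finset.Ico (4 ^ j) (4 ^ (j + 1))).filter
        fun k => fx x j k = true ∧ (Nat.unpair (x k)).1 = cz z1 j).card := by omega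
      obtain ⟨k, hk⟩ := Finset.card_pos.1 h1
      rw [Finset.mem_filter, Finset.mem_Ico] at hk
      exact lt_of_le_of_lt (Nat.find_min' hne ⟨hk.1.1, hk.2.2⟩) hk.1.2
    obtain ⟨n, hn⟩ : ∃ n, n = Nat.find hne := ⟨_, rfl⟩
    have hn1 := Nat.find_spec hne
    have hn2 : ∀ k < n, 4 ^ j ≤ k → (Nat.unpair (x k)).1 ≠ cz z1 j := by
      intro k hk h1 h2
      rw [hn] at hk
      exact Nat.find_min hne hk ⟨h1, h2⟩
    rw [← hn] at hn1 hlt
    have hnR : n ∈ RS (r1 x) j := by
      unfold RS r1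
      rw [Finset.mem_filter, Finset.mem_Ico, Bool.and_eq_true, decide_eq_true_eq, fa_iff, hn1.2]
      exact ⟨⟨hn1.1, hlt⟩, hn2, hc⟩
    have h1 := sel_eq (r1 x) (fun n m => dig (Nat.unpair (x n)).1 m) j n hnR (card_r1 x j)
    have h2 := lt_of_lt_of_le (rk_lt (r1 x) j n hnR) (card_r1 x j)
    rw [← hg1] at h1
    have h3 := hM (2 ^ (j + 1) + rk (r1 x) j n) (by omega)
    apply h3
    rw [h1, hn1.2]
    exact dig_cz hz1b j _ (by omega) (by omega)
  have hz1c' : ComputableIn O z1 := hz1c.computableIn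
  obtain ⟨g2, hg2⟩ : ∃ g2, g2 = sel (r2 x (cz z1)) (fun n m => dig (Nat.unpair (x n)).2 m) :=
    ⟨_, rfl⟩
  refine ⟨g2, ?_, ?_⟩
  · rw [hg2]
    refine csel (cr2 hx (ccz hz1c')) ?_
    exact cdig (ci_comp (f := fun n => (Nat.unpair (x n)).2) hx2 ci_fst) ci_snd
  · intro z2 hz2c hz2b
    have hz1e : ComputableIn ∅ z1 := hz1c.computableIn
    have hz2e : ComputableIn ∅ z2 := hz2c.computableIn
    obtain ⟨y, hy⟩ : ∃ y : ℕ → ℕ, y = fun n =>
        bif decide (Nat.pair (cz z1 (lgb 4 n)) (cz z2 (lgb 4 n)) < 2 ^ (2 ^ n)) then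
          Nat.pair (cz z1 (lgb 4 n)) (cz z2 (lgb 4 n)) else 0 := ⟨_, rfl⟩
    have hyc : Computable y := by
      apply computable_of_ci
      have h1 : ComputableIn ∅ fun n => cz z1 (lgb 4 n) :=
        ci_comp (f := cz z1) (ccz hz1e) (clgb 4 (f := fun m : ℕ => m) ComputableIn.id)
      have h2 : ComputableIn ∅ fun n => cz z2 (lgb 4 n) :=
        ci_comp (f := cz z2) (ccz hz2e) (clgb 4 (f := fun m : ℕ => m) ComputableIn.id)
      have h3 : ComputableIn ∅ fun n => Nat.pair (cz z1 (lgb 4 n)) (cz z2 (lgb 4 n)) :=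
        cpair h1 h2
      have h4 : ComputableIn ∅ fun n : ℕ => 2 ^ (2 ^ n) :=
        cpw 2 (f := fun n : ℕ => 2 ^ n) (cpw 2 (f := fun n : ℕ => n) ComputableIn.id)
      rw [hy]
      exact ccond (clt h3 h4) h3 (cconst 0)
    have hyb : ∀ n, y n < 2 ^ (2 ^ n) := by
      intro n
      rw [hy]
      by_cases h : Nat.pair (cz z1 (lgb 4 n)) (cz z2 (lgb 4 n)) < 2 ^ (2 ^ n)
      · simp [h]
      · simp [h]
    have hfr := hI y hyc hyb
    rw [Filter.frequently_atTop] at hfr ⊢
    intro N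
    obtain ⟨n, hn, hxy⟩ := hfr (4 ^ (N + M + 6))
    obtain ⟨j, hj⟩ : ∃ j, j = Nat.log 4 n := ⟨_, rfl⟩
    have hn0 : n ≠ 0 := by
      have : 0 < 4 ^ (N + M + 6) := by positivity
      omega
    have hj1 : 4 ^ j ≤ n := by rw [hj]; exact Nat.pow_log_le_self 4 hn0
    have hj2 : n < 4 ^ (j + 1) := by rw [hj]; exact Nat.lt_pow_succ_log_self (by norm_num) n
    have hj3 : N + M + 6 ≤ j := by
      rw [hj]
      exact Nat.le_log_of_pow_le (by norm_num) hn
    have hlg : lgb 4 n = j := lgb_eq (by norm_num) hj1 hj2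
    have hval : x n = Nat.pair (cz z1 j) (cz z2 j) := by
      rw [hxy, hy]
      show (bif decide (Nat.pair (cz z1 (lgb 4 n)) (cz z2 (lgb 4 n)) < 2 ^ (2 ^ n)) then
          Nat.pair (cz z1 (lgb 4 n)) (cz z2 (lgb 4 n)) else 0) = _
      rw [hlg]
      have := pair_bound hz1b hz2b j n (by omega) hj1
      simp [this]
    have hne : ∃ k, 4 ^ j ≤ k ∧ x k = Nat.pair (cz z1 j) (cz z2 j) := ⟨n, hj1, hval⟩
    have hlt : Nat.find hne < 4 ^ (j + 1) := lt_of_le_of_lt (Nat.find_min' hne ⟨hj1, hval⟩) hj2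
    obtain ⟨k, hk⟩ : ∃ k, k = Nat.find hne := ⟨_, rfl⟩
    have hk1 := Nat.find_spec hne
    have hk2 : ∀ l < k, 4 ^ j ≤ l → x l ≠ Nat.pair (cz z1 j) (cz z2 j) := by
      intro l hl h1 h2
      rw [hk] at hl
      exact Nat.find_min hne hl ⟨h1, h2⟩
    rw [← hk] at hk1 hlt
    have hkR : k ∈ RS (r2 x (cz z1)) j := by
      unfold RS r2
      rw [Finset.mem_filter, Finset.mem_Ico, Bool.and_eq_true, decide_eq_true_eq, fx_iff, hk1.2,
        Nat.unpair_pair]
      exact ⟨⟨hk1.1, hlt⟩, hk2, rfl⟩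
    have hM2 : N + M + 6 < 2 ^ (j + 1) :=
      lt_of_le_of_lt hj3 (lt_trans (Nat.lt_succ_self j) (Nat.lt_two_pow_self))
    have hcard := key j (by omega)
    have h1 := sel_eq (r2 x (cz z1)) (fun n m => dig (Nat.unpair (x n)).2 m) j k hkR hcard
    have h2 := lt_of_lt_of_le (rk_lt (r2 x (cz z1)) j k hkR) hcard
    rw [← hg2] at h1
    refine ⟨2 ^ (j + 1) + rk (r2 x (cz z1)) j k, by omega, ?_⟩
    rw [h1, hk1.2, Nat.unpair_pair]
    exact dig_cz hz2b j _ (by omega) (by omega)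

end main

/-! ### From `2 ^ n!` to lower density zero -/

/-- the `i`-th binary digit of `v` -/
def bt (v i : ℕ) : ℕ := v / 2 ^ i % 2

/-- the number with binary digits `f 0, ..., f (N-1)` -/
def bsum (f : ℕ → ℕ) (N : ℕ) : ℕ := nsum N fun i => f i * 2 ^ i

theorem bsum_succ (f : ℕ → ℕ) (N : ℕ) : bsum f (N + 1) = bsum f N + f N * 2 ^ N := rfl

theorem bsum_lt {f : ℕ → ℕ} (hf : ∀ i, f i < 2) (N : ℕ) : bsum f N < 2 ^ N := by
  induction N with
  | zero => simp [bsum, nsum]
  | succ N ih =>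
    rw [bsum_succ, pow_succ]
    have h1 := hf N
    have h2 : f N * 2 ^ N ≤ 1 * 2 ^ N := Nat.mul_le_mul_right _ (by omega)
    omega

theorem bt_low (a b N i : ℕ) (hi : i < N) : bt (a + b * 2 ^ N) i = bt a i := by
  unfold bt
  obtain ⟨d, hd⟩ : ∃ d, N = i + (1 + d) := ⟨N - i - 1, by omega⟩
  have e1 : a + b * 2 ^ N = a + 2 ^ i * (2 * (b * 2 ^ d)) := by
    rw [hd, pow_add, pow_add]
    ring
  rw [e1, Nat.add_mul_div_left _ _ (by positivity), Nat.add_mul_mod_self_left]

theorem bt_high (a b N i : ℕ) (ha : a < 2 ^ N) : bt (a + b * 2 ^ N) (N + i) = bt b i := by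
  unfold bt
  rw [pow_add, ← Nat.div_div_eq_div_mul, Nat.add_mul_div_right _ _ (by positivity),
    Nat.div_eq_of_lt ha, zero_add]

theorem bt_lt (v i : ℕ) : bt v i < 2 := Nat.mod_lt _ (by norm_num)

theorem bt_bsum {f : ℕ → ℕ} (hf : ∀ i, f i < 2) (N i : ℕ) (hi : i < N) :
    bt (bsum f N) i = f i := by
  induction N with
  | zero => omega
  | succ N ih =>
    rw [bsum_succ]
    rcases Nat.lt_or_ge i N with h | h
    · rw [bt_low _ _ _ _ h, ih h]
    · have e : i = N + 0 := by omega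
      rw [e, bt_high _ _ _ _ (bsum_lt hf N)]
      unfold bt
      rw [pow_zero, Nat.div_one]
      exact Nat.mod_eq_of_lt (hf _)

theorem cbt {α : Type} [Primcodable α] {O : Set (ℕ →. ℕ)} {f g : α → ℕ}
    (hf : ComputableIn O f) (hg : ComputableIn O g) : ComputableIn O fun a => bt (f a) (g a) :=
  cmod (cdiv hf (cpw 2 hg)) (cconst 2)

/-- inverse of the factorial function -/
def ifac (i : ℕ) : ℕ := nsum (i + 1) fun k => ind (decide (k.factorial ≤ i))

theorem ifac_eq {n i : ℕ} (hn : 1 ≤ n) (h1 : (n - 1).factorial ≤ i) (h2 : i < n.factorial) :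
    ifac i = n := by
  unfold ifac
  rw [nsum_ind]
  have : (Finset.range (i + 1)).filter (fun k => decide (k.factorial ≤ i) = true)
      = Finset.range n := by
    ext k
    simp only [Finset.mem_filter, Finset.mem_range, decide_eq_true_eq]
    constructor
    · rintro ⟨-, h⟩
      by_contra hc
      have h3 : n.factorial ≤ k.factorial := Nat.factorial_le (by omega)
      omega
    · intro h
      have h3 : k.factorial ≤ (n - 1).factorial := Nat.factorial_le (by omega)
      have h4 := Nat.self_le_factorial k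
      exact ⟨by omega, by omega⟩
  rw [this, Finset.card_range]

theorem cifac {α : Type} [Primcodable α] {O : Set (ℕ →. ℕ)} {f : α → ℕ}
    (hf : ComputableIn O f) : ComputableIn O fun a => ifac (f a) := by
  have h1 : ComputableIn O fun p : α × ℕ => decide (p.2.factorial ≤ f p.1) :=
    cle (cfct (f := fun p : α × ℕ => p.2) ci_snd) (ci_comp (f := f) hf ci_fst)
  exact nsum_comp (g := fun a => f a + 1)
    (q := fun (a : α) (k : ℕ) => ind (decide (k.factorial ≤ f a))) (cadd hf (cconst 1)) (cind h1)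

theorem liminf_le_zero {u : ℕ → ℝ} (h0 : ∀ n, 0 ≤ u n)
    (h : ∀ ε > 0, ∃ᶠ n in Filter.atTop, u n ≤ ε) : Filter.liminf u Filter.atTop ≤ 0 := by
  apply le_of_forall_pos_le_add
  intro ε hε
  rw [zero_add]
  have hb : Filter.IsBoundedUnder (· ≥ ·) Filter.atTop u :=
    Filter.isBoundedUnder_of ⟨0, fun n => h0 n⟩
  exact Filter.liminf_le_of_frequently_le (h ε hε) hb

theorem dneq_fact_subset_dsim : DNeq (fun n => 2 ^ n.factorial) ⊆ DSim 0 := by
  rintro A ⟨x, hx, hxy⟩
  refine ⟨fun i => decide (bt (x (ifac i)) i = 0), ?_, ?_⟩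
  · have h1 : ComputableIn {orc A} fun i => x (ifac i) :=
      ci_comp (f := x) hx (cifac (f := fun i : ℕ => i) ComputableIn.id)
    exact ceqN (cbt h1 (g := fun i : ℕ => i) ComputableIn.id) (cconst 0)
  · intro S hS
    unfold lowerDens
    apply liminf_le_zero
    · intro n
      positivity
    intro ε hε
    have hf : ∀ i, ind (S i) < 2 := by
      intro i
      cases S i <;> simp [ind]
    have hyc : Computable fun n : ℕ => bsum (fun i => ind (S i)) n.factorial := by
      apply computable_of_ci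
      have hS' : ComputableIn ∅ S := hS.computableIn
      have h2 : ComputableIn ∅ fun p : ℕ × ℕ => ind (S p.2) * 2 ^ p.2 :=
        cmul (cind (ci_comp (f := S) hS' ci_snd)) (cpw 2 (f := fun p : ℕ × ℕ => p.2) ci_snd)
      exact nsum_comp (g := fun n : ℕ => n.factorial)
        (q := fun (_ : ℕ) (i : ℕ) => ind (S i) * 2 ^ i)
        (cfct (f := fun n : ℕ => n) ComputableIn.id) h2
    have hfr := hxy _ hyc (fun n => bsum_lt hf _)
    obtain ⟨K, hK⟩ := exists_nat_gt (1 / ε)
    rw [Filter.frequently_atTop] at hfr ⊢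
    intro N
    obtain ⟨n, hn, hxn⟩ := hfr (N + K + 1)
    refine ⟨n.factorial, le_trans (by omega) (Nat.self_le_factorial n), ?_⟩
    have hn1 : 1 ≤ n := by omega
    have hag : agree (fun i => decide (bt (x (ifac i)) i = 0)) S n.factorial
        ≤ (n - 1).factorial := by
      unfold agree
      have : (Finset.range n.factorial).filter
          (fun i => decide (bt (x (ifac i)) i = 0) = S i) ⊆ Finset.range (n - 1).factorial := by
        intro i hi
        rw [Finset.mem_filter, Finset.mem_range] at hi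
        rw [Finset.mem_range]
        by_contra hc
        have h1 : ifac i = n := ifac_eq hn1 (by omega) hi.1
        have h2 := hi.2
        rw [h1, hxn, bt_bsum hf _ _ hi.1] at h2
        cases hSi : S i <;> simp [hSi, ind] at h2
      exact (Finset.card_le_card this).trans (Finset.card_range _).le
    have hfn : (n.factorial : ℝ) = n * (n - 1).factorial := by
      have : n.factorial = n * (n - 1).factorial := (Nat.mul_factorial_pred (by omega)).symm
      rw [this]
      push_cast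
      rfl
    have hpos : (0 : ℝ) < (n - 1).factorial := by exact_mod_cast Nat.factorial_pos _
    have hnpos : (0 : ℝ) < n := by exact_mod_cast hn1
    have h3 : (agree (fun i => decide (bt (x (ifac i)) i = 0)) S n.factorial : ℝ)
        ≤ (n - 1).factorial := by exact_mod_cast hag
    have hKn : (K : ℝ) ≤ n := by exact_mod_cast (by omega : K ≤ n)
    have h4 : 1 / ε < n := lt_of_lt_of_le hK hKn
    rw [div_lt_iff₀ hε] at h4
    rw [hfn, div_le_iff₀ (by positivity)]
    calc (agree (fun i => decide (bt (x (ifac i)) i = 0)) S n.factorial : ℝ)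
        ≤ 1 * (n - 1).factorial := by rw [one_mul]; exact h3
      _ ≤ (n * ε) * (n - 1).factorial := mul_le_mul_of_nonneg_right h4.le hpos.le
      _ = ε * (n * (n - 1).factorial) := by ring

theorem dneq_fact_subset : DNeq (fun n => 2 ^ n.factorial) ⊆ DNeq (fun n => 2 ^ (2 ^ n)) := by
  rintro A ⟨x, hx, hxy⟩
  refine ⟨x, hx, ?_⟩
  intro y hy hyb
  have hy' : Computable fun n => bif decide (4 ≤ n) then y n else 0 := by
    apply computable_of_ci
    exact ccond (cle (cconst 4) ComputableIn.id) hy.computableIn (cconst 0)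
  have h := hxy _ hy' (by
    intro n
    by_cases hn : 4 ≤ n
    · simp only [hn, decide_true, cond_true]
      refine lt_of_lt_of_le (hyb n) (Nat.pow_le_pow_right (by norm_num) ?_)
      induction n, hn using Nat.le_induction with
      | base => decide
      | succ n hn ih =>
        rw [pow_succ, Nat.factorial_succ, mul_comm]
        exact Nat.mul_le_mul (by omega) ih
    · simp [hn])
  refine (h.and_eventually (Filter.eventually_ge_atTop 4)).mono ?_
  rintro n ⟨h1, h2⟩
  simpa [h2] using h1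

theorem dneq_subset_fact : DNeq (fun n => 2 ^ (2 ^ n)) ⊆ DNeq (fun n => 2 ^ n.factorial) := by
  rintro A ⟨x, hx, hxy⟩
  obtain ⟨g, hg, hg'⟩ := main_step hx hxy
  exact ⟨g, hg, hg'⟩

/-! ### Error correcting codes -/

/-- number of differences below `N` -/
def dd (f g : ℕ → ℕ) (N : ℕ) : ℕ := nsum N fun i => ind (!(decide (f i = g i)))

theorem dd_succ (f g : ℕ → ℕ) (N : ℕ) :
    dd f g (N + 1) = dd f g N + ind (!(decide (f N = g N))) := rfl

theorem dd_le (f g : ℕ → ℕ) (N : ℕ) : dd f g N ≤ N := by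
  induction N with
  | zero => simp [dd, nsum]
  | succ N ih =>
    rw [dd_succ]
    have : ind (!(decide (f N = g N))) ≤ 1 := by
      cases (!(decide (f N = g N))) <;> simp [ind]
    omega

theorem dd_congr {f f' g g' : ℕ → ℕ} {N : ℕ} (h : ∀ i < N, f i = f' i)
    (h' : ∀ i < N, g i = g' i) : dd f g N = dd f' g' N := by
  unfold dd
  rw [nsum_eq, nsum_eq]
  refine Finset.sum_congr rfl fun i hi => ?_
  rw [h i (Finset.mem_range.1 hi), h' i (Finset.mem_range.1 hi)]

theorem dd_comm (f g : ℕ → ℕ) (N : ℕ) : dd f g N = dd g f N := by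
  unfold dd
  rw [nsum_eq, nsum_eq]
  refine Finset.sum_congr rfl fun i _ => ?_
  by_cases h : f i = g i
  · simp [h]
  · have h' : ¬ g i = f i := fun e => h e.symm
    simp [h, h']

theorem dd_tri (f g h : ℕ → ℕ) (N : ℕ) : dd f h N ≤ dd f g N + dd g h N := by
  induction N with
  | zero => simp [dd, nsum]
  | succ N ih =>
    rw [dd_succ, dd_succ, dd_succ]
    have : ind (!(decide (f N = h N))) ≤ ind (!(decide (f N = g N)))
        + ind (!(decide (g N = h N))) := by
      by_cases h1 : f N = g N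
      · simp [h1]
      · by_cases h2 : g N = h N
        · simp [h2, ind]
        · simp [h1, h2, ind]
          by_cases h3 : f N = h N <;> simp [h3]
    omega

theorem ball_sum (f : ℕ → ℕ) (hf : ∀ i, f i < 2) (N : ℕ) :
    ∑ v ∈ Finset.range (2 ^ N), 16 ^ (N - dd (bt v) f N) = 17 ^ N := by
  induction N with
  | zero => simp [dd, nsum]
  | succ N ih =>
    rw [pow_succ 2, mul_two, Finset.sum_range_add]
    have e1 : ∀ v ∈ Finset.range (2 ^ N), bt v N = 0 := by
      intro v hv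
      unfold bt
      rw [Nat.div_eq_of_lt (Finset.mem_range.1 hv)]
    have e2 : ∀ v ∈ Finset.range (2 ^ N), bt (2 ^ N + v) N = 1 := by
      intro v hv
      have h1 : 2 ^ N + v = v + 1 * 2 ^ N := by ring
      have h2 := bt_high v 1 N 0 (Finset.mem_range.1 hv)
      rw [add_zero] at h2
      rw [h1, h2]
      simp [bt]
    have e3 : ∀ v, dd (bt (2 ^ N + v)) f N = dd (bt v) f N := by
      intro v
      apply dd_congr
      · intro i hi
        have h1 : 2 ^ N + v = v + 1 * 2 ^ N := by ring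
        rw [h1, bt_low _ _ _ _ hi]
      · intro i _
        rfl
    have hle : ∀ v, dd (bt v) f N ≤ N := fun v => dd_le _ _ _
    have hfN := hf N
    have hcase : f N = 0 ∨ f N = 1 := by omega
    rcases hcase with h0 | h0
    · have s1 : ∑ v ∈ Finset.range (2 ^ N), 16 ^ (N + 1 - dd (bt v) f (N + 1))
          = 16 * 17 ^ N := by
        rw [← ih, Finset.mul_sum]
        refine Finset.sum_congr rfl fun v hv => ?_
        rw [dd_succ, e1 v hv, h0]
        have : N + 1 - (dd (bt v) f N + ind (!(decide (0 = 0)))) = (N - dd (bt v) f N) + 1 := by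
          have := hle v
          simp [ind]
          omega
        rw [this, pow_succ, mul_comm]
      have s2 : ∑ v ∈ Finset.range (2 ^ N), 16 ^ (N + 1 - dd (bt (2 ^ N + v)) f (N + 1))
          = 17 ^ N := by
        rw [← ih]
        refine Finset.sum_congr rfl fun v hv => ?_
        rw [dd_succ, e2 v hv, h0, e3]
        have : N + 1 - (dd (bt v) f N + ind (!(decide (1 = 0)))) = N - dd (bt v) f N := by
          simp [ind]
        rw [this]
      rw [s1, s2]
      ring
    · have s1 : ∑ v ∈ Finset.range (2 ^ N), 16 ^ (N + 1 - dd (bt v) f (N + 1))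
          = 17 ^ N := by
        rw [← ih]
        refine Finset.sum_congr rfl fun v hv => ?_
        rw [dd_succ, e1 v hv, h0]
        have : N + 1 - (dd (bt v) f N + ind (!(decide (0 = 1)))) = N - dd (bt v) f N := by
          simp [ind]
        rw [this]
      have s2 : ∑ v ∈ Finset.range (2 ^ N), 16 ^ (N + 1 - dd (bt (2 ^ N + v)) f (N + 1))
          = 16 * 17 ^ N := by
        rw [← ih, Finset.mul_sum]
        refine Finset.sum_congr rfl fun v hv => ?_
        rw [dd_succ, e2 v hv, h0, e3]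
        have : N + 1 - (dd (bt v) f N + ind (!(decide (1 = 1)))) = (N - dd (bt v) f N) + 1 := by
          have := hle v
          simp [ind]
          omega
        rw [this, pow_succ, mul_comm]
      rw [s1, s2]
      ring

theorem ball_card (f : ℕ → ℕ) (hf : ∀ i, f i < 2) (N D : ℕ) :
    ((Finset.range (2 ^ N)).filter fun v => dd (bt v) f N ≤ D).card * 16 ^ (N - D) ≤ 17 ^ N := by
  rw [← ball_sum f hf N, ← smul_eq_mul, ← Finset.sum_const]
  calc ∑ _v ∈ (Finset.range (2 ^ N)).filter (fun v => dd (bt v) f N ≤ D), 16 ^ (N - D)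
      ≤ ∑ v ∈ (Finset.range (2 ^ N)).filter (fun v => dd (bt v) f N ≤ D),
          16 ^ (N - dd (bt v) f N) := by
        refine Finset.sum_le_sum fun v hv => ?_
        have := (Finset.mem_filter.1 hv).2
        exact Nat.pow_le_pow_right (by norm_num) (by omega)
    _ ≤ ∑ v ∈ Finset.range (2 ^ N), 16 ^ (N - dd (bt v) f N) :=
        Finset.sum_le_sum_of_subset (Finset.filter_subset _ _)

theorem exists_far (F : ℕ → ℕ → ℕ) (hF : ∀ b i, F b i < 2) (N D K : ℕ)
    (h : K * 17 ^ N < 2 ^ N * 16 ^ (N - D)) : ∃ v < 2 ^ N, ∀ b < K, D < dd (bt v) (F b) N := by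
  by_contra hc
  push Not at hc
  have h1 : Finset.range (2 ^ N) ⊆ (Finset.range K).biUnion
      (fun b => (Finset.range (2 ^ N)).filter fun v => dd (bt v) (F b) N ≤ D) := by
    intro v hv
    obtain ⟨b, hb, hd⟩ := hc v (Finset.mem_range.1 hv)
    rw [Finset.mem_biUnion]
    exact ⟨b, Finset.mem_range.2 hb, Finset.mem_filter.2 ⟨hv, hd⟩⟩
  have h2 := Finset.card_le_card h1
  rw [Finset.card_range] at h2
  have h3 := h2.trans Finset.card_biUnion_le
  have h4 : 2 ^ N * 16 ^ (N - D) ≤ K * 17 ^ N := by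
    calc 2 ^ N * 16 ^ (N - D) ≤ (∑ b ∈ Finset.range K,
          ((Finset.range (2 ^ N)).filter fun v => dd (bt v) (F b) N ≤ D).card) * 16 ^ (N - D) :=
          Nat.mul_le_mul_right _ h3
      _ = ∑ b ∈ Finset.range K,
          ((Finset.range (2 ^ N)).filter fun v => dd (bt v) (F b) N ≤ D).card * 16 ^ (N - D) := by
          rw [Finset.sum_mul]
      _ ≤ ∑ _b ∈ Finset.range K, 17 ^ N := Finset.sum_le_sum fun b _ => ball_card _ (hF b) N D
      _ = K * 17 ^ N := by rw [Finset.sum_const, Finset.card_range, smul_eq_mul]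
  omega

/-- the `i`-th digit of the `a`-th word of the code `E` of length `N` -/
def cw (E N a i : ℕ) : ℕ := bt E (N * a + i)

theorem num_bound (M : ℕ) : 2 ^ M * 17 ^ (64 * M) ≤ 2 ^ (64 * M) * 16 ^ (64 * M - 2 * M) := by
  have e : 64 * M - 2 * M = 62 * M := by omega
  rw [e, pow_mul, pow_mul, pow_mul, ← mul_pow, ← mul_pow]
  exact Nat.pow_le_pow_left (by norm_num) M

theorem exists_code (M K : ℕ) (hK : K ≤ 2 ^ M) :
    ∃ E < 2 ^ (64 * M * K), ∀ a < K, ∀ b < a,
      2 * M < dd (cw E (64 * M) a) (cw E (64 * M) b) (64 * M) := by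
  induction K with
  | zero => exact ⟨0, by simp, by intro a ha; omega⟩
  | succ K ih =>
    obtain ⟨E, hE, hd⟩ := ih (by omega)
    have h1 : K * 17 ^ (64 * M) < 2 ^ (64 * M) * 16 ^ (64 * M - 2 * M) := by
      have h2 : K * 17 ^ (64 * M) < 2 ^ M * 17 ^ (64 * M) :=
        Nat.mul_lt_mul_of_pos_right (by omega) (by positivity)
      exact lt_of_lt_of_le h2 (num_bound M)
    obtain ⟨v, hv, hfar⟩ := exists_far (fun b => cw E (64 * M) b) (fun b i => bt_lt _ _)
      (64 * M) (2 * M) K h1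
    have hlow : ∀ a < K, ∀ i < 64 * M,
        cw (E + v * 2 ^ (64 * M * K)) (64 * M) a i = cw E (64 * M) a i := by
      intro a ha i hi
      unfold cw
      apply bt_low
      have : 64 * M * a + 64 * M ≤ 64 * M * K := by
        rw [← Nat.mul_succ]
        exact Nat.mul_le_mul_left _ ha
      omega
    have hhigh : ∀ i, cw (E + v * 2 ^ (64 * M * K)) (64 * M) K i = bt v i := by
      intro i
      unfold cw
      exact bt_high _ _ _ _ hE
    refine ⟨E + v * 2 ^ (64 * M * K), ?_, ?_⟩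
    · have e : 64 * M * (K + 1) = 64 * M * K + 64 * M := by ring
      rw [e, pow_add]
      have h3 : (v + 1) * 2 ^ (64 * M * K) ≤ 2 ^ (64 * M) * 2 ^ (64 * M * K) :=
        Nat.mul_le_mul_right _ hv
      nlinarith
    · intro a ha b hb
      rcases Nat.lt_or_ge a K with h | h
      · rw [dd_congr (hlow a h) (hlow b (by omega))]
        exact hd a h b hb
      · have e : a = K := by omega
        subst e
        rw [dd_congr (fun i _ => hhigh i) (hlow b hb)]
        exact hfar b hb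

/-- `E` is a good code for the messages below `2 ^ 2 ^ n` -/
def good (n E : ℕ) : Bool :=
  ball (2 ^ (2 ^ n)) fun a => ball a fun b =>
    decide (2 * 2 ^ n < dd (cw E (64 * 2 ^ n) a) (cw E (64 * 2 ^ n) b) (64 * 2 ^ n))

theorem good_iff (n E : ℕ) : good n E = true ↔ ∀ a < 2 ^ (2 ^ n), ∀ b < a,
    2 * 2 ^ n < dd (cw E (64 * 2 ^ n) a) (cw E (64 * 2 ^ n) b) (64 * 2 ^ n) := by
  unfold good
  rw [ball_iff]
  refine forall₂_congr fun a _ => ?_
  rw [ball_iff]
  refine forall₂_congr fun b _ => ?_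
  rw [decide_eq_true_eq]

theorem exists_good (n : ℕ) : ∃ E, good n E = true := by
  obtain ⟨E, -, h⟩ := exists_code (2 ^ n) (2 ^ (2 ^ n)) le_rfl
  exact ⟨E, (good_iff n E).2 h⟩

theorem ccw {α : Type} [Primcodable α] {O : Set (ℕ →. ℕ)} {f g h k : α → ℕ}
    (hf : ComputableIn O f) (hg : ComputableIn O g) (hh : ComputableIn O h)
    (hk : ComputableIn O k) : ComputableIn O fun a => cw (f a) (g a) (h a) (k a) :=
  cbt hf (cadd (cmul hg hh) hk)

theorem cdd {α : Type} [Primcodable α] {O : Set (ℕ →. ℕ)} {f g : α → ℕ → ℕ} {N : α → ℕ}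
    (hf : ComputableIn₂ O f) (hg : ComputableIn₂ O g) (hN : ComputableIn O N) :
    ComputableIn O fun a => dd (f a) (g a) (N a) :=
  nsum_comp (g := N) (q := fun a i => ind (!(decide (f a i = g a i)))) hN
    (cind (cnot (ceqN hf hg)))

theorem cgood {O : Set (ℕ →. ℕ)} : ComputableIn O fun p : ℕ × ℕ => good p.1 p.2 := by
  -- variables: (((n, E), a), b), i
  have hn : ComputableIn O fun q : (((ℕ × ℕ) × ℕ) × ℕ) => 64 * 2 ^ q.1.1.1 :=
    cmul (cconst 64) (cpw 2 (f := fun q : (((ℕ × ℕ) × ℕ) × ℕ) => q.1.1.1)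
      (ci_comp ci_fst (ci_comp ci_fst ci_fst)))
  have hn' : ComputableIn O fun q : (((ℕ × ℕ) × ℕ) × ℕ) × ℕ => 64 * 2 ^ q.1.1.1.1 :=
    ci_comp (f := fun q : (((ℕ × ℕ) × ℕ) × ℕ) => 64 * 2 ^ q.1.1.1) hn ci_fst
  have hE : ComputableIn O fun q : (((ℕ × ℕ) × ℕ) × ℕ) × ℕ => q.1.1.1.2 :=
    ci_comp ci_snd (ci_comp ci_fst (ci_comp ci_fst ci_fst))
  have ha : ComputableIn O fun q : (((ℕ × ℕ) × ℕ) × ℕ) × ℕ => q.1.1.2 :=
    ci_comp ci_snd (ci_comp ci_fst ci_fst)
  have hb : ComputableIn O fun q : (((ℕ × ℕ) × ℕ) × ℕ) × ℕ => q.1.2 := ci_comp ci_snd ci_fst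
  have h1 : ComputableIn O fun q : (((ℕ × ℕ) × ℕ) × ℕ) × ℕ =>
      cw q.1.1.1.2 (64 * 2 ^ q.1.1.1.1) q.1.1.2 q.2 := ccw hE hn' ha ci_snd
  have h2 : ComputableIn O fun q : (((ℕ × ℕ) × ℕ) × ℕ) × ℕ =>
      cw q.1.1.1.2 (64 * 2 ^ q.1.1.1.1) q.1.2 q.2 := ccw hE hn' hb ci_snd
  have h3 : ComputableIn O fun q : (((ℕ × ℕ) × ℕ) × ℕ) =>
      dd (cw q.1.1.2 (64 * 2 ^ q.1.1.1) q.1.2) (cw q.1.1.2 (64 * 2 ^ q.1.1.1) q.2)
        (64 * 2 ^ q.1.1.1) :=
    cdd (f := fun q : (((ℕ × ℕ) × ℕ) × ℕ) => cw q.1.1.2 (64 * 2 ^ q.1.1.1) q.1.2)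
      (g := fun q : (((ℕ × ℕ) × ℕ) × ℕ) => cw q.1.1.2 (64 * 2 ^ q.1.1.1) q.2) h1 h2 hn
  have h4 : ComputableIn O fun q : (((ℕ × ℕ) × ℕ) × ℕ) => 2 * 2 ^ q.1.1.1 :=
    cmul (cconst 2) (cpw 2 (f := fun q : (((ℕ × ℕ) × ℕ) × ℕ) => q.1.1.1)
      (ci_comp ci_fst (ci_comp ci_fst ci_fst)))
  have h5 : ComputableIn O fun q : ((ℕ × ℕ) × ℕ) => ball q.2 fun b =>
      decide (2 * 2 ^ q.1.1 < dd (cw q.1.2 (64 * 2 ^ q.1.1) q.2) (cw q.1.2 (64 * 2 ^ q.1.1) b)
        (64 * 2 ^ q.1.1)) :=
    ball_comp (g := fun q : ((ℕ × ℕ) × ℕ) => q.2)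
      (q := fun (q : (ℕ × ℕ) × ℕ) (b : ℕ) => decide (2 * 2 ^ q.1.1 <
        dd (cw q.1.2 (64 * 2 ^ q.1.1) q.2) (cw q.1.2 (64 * 2 ^ q.1.1) b) (64 * 2 ^ q.1.1)))
      ci_snd (clt h4 h3)
  have h6 : ComputableIn O fun p : ℕ × ℕ => 2 ^ (2 ^ p.1) :=
    cpw 2 (f := fun p : ℕ × ℕ => 2 ^ p.1) (cpw 2 (f := fun p : ℕ × ℕ => p.1) ci_fst)
  exact ball_comp (g := fun p : ℕ × ℕ => 2 ^ (2 ^ p.1))
    (q := fun (p : ℕ × ℕ) (a : ℕ) => ball a fun b =>
      decide (2 * 2 ^ p.1 < dd (cw p.2 (64 * 2 ^ p.1) a) (cw p.2 (64 * 2 ^ p.1) b)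
        (64 * 2 ^ p.1))) h6 h5

theorem search {α : Type} [Primcodable α] {q : α → ℕ → Bool} (hq : Computable₂ q)
    (H : ∀ a, ∃ n, q a n = true) : ∃ F : α → ℕ, Computable F ∧ ∀ a, q a (F a) = true := by
  classical
  have hP : ComputablePred (fun p : α × ℕ => q p.1 p.2 = true) :=
    Computable.computablePred (by
      have : Computable fun p : α × ℕ => q p.1 p.2 := hq
      simpa using this)
  exact ⟨_, Computable.find (P := fun a n => q a n = true) hP H, fun a => Nat.find_spec (H a)⟩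

theorem exists_codes : ∃ E : ℕ → ℕ, Computable E ∧ ∀ n, ∀ a < 2 ^ (2 ^ n), ∀ b < a,
    2 * 2 ^ n < dd (cw (E n) (64 * 2 ^ n) a) (cw (E n) (64 * 2 ^ n) b) (64 * 2 ^ n) := by
  have h : Computable₂ good := computable_of_ci cgood
  obtain ⟨E, hE, hg⟩ := search h exists_good
  exact ⟨E, hE, fun n => (good_iff n (E n)).1 (hg n)⟩

theorem dsim_subset : DSim 0 ⊆ DNeq (fun n => 2 ^ (2 ^ n)) := by
  rintro A ⟨X, hX, hXS⟩
  obtain ⟨E, hE, hgood⟩ := exists_codes
  -- the received word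
  obtain ⟨w, hw⟩ : ∃ w : ℕ → ℕ → ℕ, w = fun n i => ind (!(X (64 * 2 ^ n + i))) := ⟨_, rfl⟩
  have hEO : ComputableIn {orc A} E := hE.computableIn
  have hNc : ComputableIn {orc A} fun n : ℕ => 64 * 2 ^ n :=
    cmul (cconst 64) (cpw 2 (f := fun n : ℕ => n) ComputableIn.id)
  have hN1 : ComputableIn {orc A} fun p : ℕ × ℕ => 64 * 2 ^ p.1 :=
    ci_comp (f := fun n : ℕ => 64 * 2 ^ n) hNc ci_fst
  have hN2 : ComputableIn {orc A} fun p : (ℕ × ℕ) × ℕ => 64 * 2 ^ p.1.1 :=
    ci_comp (f := fun p : ℕ × ℕ => 64 * 2 ^ p.1) hN1 ci_fst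
  have hwc : ComputableIn {orc A} fun p : ℕ × ℕ => w p.1 p.2 := by
    rw [hw]
    exact cind (cnot (ci_comp (f := X) hX (cadd hN1 ci_snd)))
  obtain ⟨x, hx⟩ : ∃ x : ℕ → ℕ, x = fun n => nsum (2 ^ (2 ^ n)) fun a =>
      ind (decide (dd (cw (E n) (64 * 2 ^ n) a) (w n) (64 * 2 ^ n) ≤ 2 ^ n)) * a := ⟨_, rfl⟩
  refine ⟨x, ?_, ?_⟩
  · have h1 : ComputableIn {orc A} fun p : (ℕ × ℕ) × ℕ =>
        cw (E p.1.1) (64 * 2 ^ p.1.1) p.1.2 p.2 :=
      ccw (ci_comp (f := E) hEO (ci_comp ci_fst ci_fst)) hN2 (ci_comp ci_snd ci_fst) ci_snd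
    have h2 : ComputableIn {orc A} fun p : (ℕ × ℕ) × ℕ => w p.1.1 p.2 :=
      ci_comp (f := fun p : ℕ × ℕ => w p.1 p.2) (g := fun p : (ℕ × ℕ) × ℕ => (p.1.1, p.2)) hwc
        (ci_pair (ci_comp ci_fst ci_fst) ci_snd)
    have h3 : ComputableIn {orc A} fun p : ℕ × ℕ =>
        dd (cw (E p.1) (64 * 2 ^ p.1) p.2) (w p.1) (64 * 2 ^ p.1) :=
      cdd (f := fun p : ℕ × ℕ => cw (E p.1) (64 * 2 ^ p.1) p.2) (g := fun p : ℕ × ℕ => w p.1)
        h1 h2 hN1
    have h4 : ComputableIn {orc A} fun p : ℕ × ℕ => 2 ^ p.1 :=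
      cpw 2 (f := fun p : ℕ × ℕ => p.1) ci_fst
    have h5 : ComputableIn {orc A} fun n : ℕ => 2 ^ (2 ^ n) :=
      cpw 2 (f := fun n : ℕ => 2 ^ n) (cpw 2 (f := fun n : ℕ => n) ComputableIn.id)
    rw [hx]
    exact nsum_comp (g := fun n : ℕ => 2 ^ (2 ^ n)) (q := fun n a =>
      ind (decide (dd (cw (E n) (64 * 2 ^ n) a) (w n) (64 * 2 ^ n) ≤ 2 ^ n)) * a) h5
      (cmul (cind (cle h3 h4)) ci_snd)
  · intro y hy hyb
    -- the computable set coding `y`
    obtain ⟨S, hS⟩ : ∃ S : ℕ → Bool, S = fun t => decide (cw (E (lgb 2 t - 6))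
        (64 * 2 ^ (lgb 2 t - 6)) (y (lgb 2 t - 6)) (t - 64 * 2 ^ (lgb 2 t - 6)) = 1) := ⟨_, rfl⟩
    have hSc : Computable S := by
      apply computable_of_ci
      have hl : ComputableIn ∅ fun t : ℕ => lgb 2 t - 6 :=
        csub (clgb 2 (f := fun t : ℕ => t) ComputableIn.id) (cconst 6)
      have hl2 : ComputableIn ∅ fun t : ℕ => 64 * 2 ^ (lgb 2 t - 6) :=
        cmul (cconst 64) (cpw 2 (f := fun t : ℕ => lgb 2 t - 6) hl)
      rw [hS]
      exact ceqN (ccw (ci_comp (f := E) hE.computableIn hl) hl2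
        (ci_comp (f := y) hy.computableIn hl) (csub ComputableIn.id hl2)) (cconst 1)
    have hden := hXS S hSc
    unfold lowerDens at hden
    have hfr : ∃ᶠ T : ℕ in Filter.atTop, (agree X S T : ℝ) / T < 1 / 256 := by
      apply Filter.frequently_lt_of_liminf_lt
      · exact Filter.isCoboundedUnder_ge_of_le _ (x := 1) (fun T => by
          apply div_le_one_of_le₀ _ (Nat.cast_nonneg T)
          have : agree X S T ≤ T := by
            unfold agree
            exact (Finset.card_filter_le _ _).trans (Finset.card_range _).le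
          exact_mod_cast this)
      · exact lt_of_le_of_lt hden (by norm_num)
    rw [Filter.frequently_atTop] at hfr ⊢
    intro n0
    obtain ⟨T, hT, hTlt⟩ := hfr (2 ^ (n0 + 7))
    obtain ⟨k, hk⟩ : ∃ k, k = Nat.log 2 T := ⟨_, rfl⟩
    have hT0 : T ≠ 0 := by
      have : 0 < 2 ^ (n0 + 7) := by positivity
      omega
    have hk1 : 2 ^ k ≤ T := by rw [hk]; exact Nat.pow_log_le_self 2 hT0
    have hk2 : T < 2 ^ (k + 1) := by rw [hk]; exact Nat.lt_pow_succ_log_self (by norm_num) T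
    have hk3 : n0 + 7 ≤ k := by
      rw [hk]
      exact Nat.le_log_of_pow_le (by norm_num) hT
    obtain ⟨n, hn⟩ : ∃ n, k = n + 7 := ⟨k - 7, by omega⟩
    have e64 : 64 * 2 ^ n = 2 ^ (n + 6) := by ring
    refine ⟨n, by omega, ?_⟩
    -- few errors
    have hag : agree X S T < 2 ^ n := by
      have hTpos : (0 : ℝ) < T := by exact_mod_cast Nat.pos_of_ne_zero hT0
      rw [div_lt_iff₀ hTpos] at hTlt
      have h1 : (T : ℝ) < 2 ^ (n + 8) := by
        have : T < 2 ^ (n + 8) := by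
          rw [hn] at hk2
          exact hk2
        exact_mod_cast this
      have h2 : (2 : ℝ) ^ (n + 8) = 256 * 2 ^ n := by ring
      have h3 : (agree X S T : ℝ) < 2 ^ n := by
        rw [h2] at h1
        linarith
      exact_mod_cast h3
    have hSblock : ∀ i < 64 * 2 ^ n, ind (S (64 * 2 ^ n + i))
        = cw (E n) (64 * 2 ^ n) (y n) i := by
      intro i hi
      have h1 : lgb 2 (64 * 2 ^ n + i) = n + 6 := by
        apply lgb_eq le_rfl
        · omega
        · rw [pow_succ 2 (n + 6)]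
          omega
      rw [hS]
      simp only [h1, Nat.add_sub_cancel, Nat.add_sub_cancel_left]
      have h2 : cw (E n) (64 * 2 ^ n) (y n) i < 2 := bt_lt _ _
      by_cases h3 : cw (E n) (64 * 2 ^ n) (y n) i = 1
      · rw [h3]
        rfl
      · have h4 : cw (E n) (64 * 2 ^ n) (y n) i = 0 := by omega
        rw [h4]
        rfl
    have hdist : dd (cw (E n) (64 * 2 ^ n) (y n)) (w n) (64 * 2 ^ n) ≤ 2 ^ n := by
      refine le_trans ?_ hag.le
      unfold dd agree
      rw [nsum_ind]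
      apply Finset.card_le_card_of_injOn (fun i => 64 * 2 ^ n + i)
      · intro i hi
        rw [Finset.mem_coe, Finset.mem_filter, Finset.mem_range] at hi
        rw [Finset.mem_coe, Finset.mem_filter, Finset.mem_range]
        constructor
        · have h1 : 2 ^ (n + 7) ≤ T := by rw [← hn]; exact hk1
          have h2 : 2 ^ (n + 7) = 64 * 2 ^ n + 64 * 2 ^ n := by ring
          show 64 * 2 ^ n + i < T
          omega
        · have h1 := hi.2
          rw [← hSblock i hi.1, hw] at h1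
          simp only [Bool.not_eq_true', decide_eq_false_iff_not] at h1
          cases hX1 : X (64 * 2 ^ n + i) <;> cases hS1 : S (64 * 2 ^ n + i) <;>
            simp [hX1, hS1, ind] at h1 ⊢
      · intro i _ i' _ h
        simpa using h
    -- decoding
    rw [hx]
    show nsum (2 ^ (2 ^ n)) (fun a =>
      ind (decide (dd (cw (E n) (64 * 2 ^ n) a) (w n) (64 * 2 ^ n) ≤ 2 ^ n)) * a) = y n
    rw [nsum_eq, Finset.sum_eq_single (y n)]
    · rw [ind_true (by simpa using hdist), one_mul]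
    · intro a ha hne
      rw [ind_false, zero_mul]
      rw [decide_eq_false_iff_not]
      intro hc
      have h1 := dd_tri (cw (E n) (64 * 2 ^ n) a) (w n) (cw (E n) (64 * 2 ^ n) (y n)) (64 * 2 ^ n)
      rw [dd_comm (w n)] at h1
      rcases Nat.lt_or_gt_of_ne hne with h | h
      · have h2 := hgood n (y n) (hyb n) a h
        rw [dd_comm] at h2
        omega
      · have h2 := hgood n a (Finset.mem_range.1 ha) (y n) h
        omega
    · intro h
      exact absurd (Finset.mem_range.2 (hyb n)) h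

/-- All three classes coincide: `D(∼₀) = D(≠*, 2^(2^n)) = D(≠*, 2^(n!))`. -/
theorem result :
    DSim 0 = DNeq (fun n => 2 ^ (2 ^ n)) ∧
      DNeq (fun n => 2 ^ n.factorial) = DNeq (fun n => 2 ^ (2 ^ n)) := by
  refine ⟨Set.Subset.antisymm dsim_subset ?_, Set.Subset.antisymm dneq_fact_subset
    dneq_subset_fact⟩
  exact dneq_subset_fact.trans dneq_fact_subset_dsim

end Pool.Agent.Results.MP_65fbb9_lc.Coincidence
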